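import Pool.Agent.H152R2.Kad2.Mom

/-!
Task 10 of h759b: averages along the orbits of the random unitary.
-/

open scoped ComplexOrder InnerProductSpace ComplexConjugate
open Finset

noncomputable section

namespace H759R2.Kad

universe u v

namespace Orbit

section

variable {A : Type u} [CStarAlgebra A] [PartialOrder A] [StarOrderedRing A]
variable {H : Type v} [NormedAddCommGroup H] [InnerProductSpace ℂ H] [CompleteSpace H]
variable {ι : Type} [Fintype ι] [DecidableEq ι] {R : ℕ} [NeZero R]
variable {w : A →ₗ[ℂ] (H →L[ℂ] H)}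

omit [PartialOrder A] [StarOrderedRing A] [CompleteSpace H] [DecidableEq ι] in
theorem amp_mul (hw : IsHom w) (X Y : CStarMatrix ι ι A) :
    amp w ι (X * Y) = amp w ι X * amp w ι Y := amp_mul_of _ _ _ _ _ fun a b => hw.mul a b

omit [PartialOrder A] [StarOrderedRing A] [CompleteSpace H] in
theorem amp_one (hw : IsHom w) : amp w ι (1 : CStarMatrix ι ι A) = 1 := by
  ext v i
  rw [amp_apply, Finset.sum_eq_single i]
  · simp [CStarMatrix.one_apply, hw.one]
  · intro j _ hj
    simp [CStarMatrix.one_apply, Ne.symm hj]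
  · simp

omit [PartialOrder A] [StarOrderedRing A] [CompleteSpace H] in
theorem amp_phase (hw : IsHom w) (ω : ι → ZMod R) (z : HH ι H) :
    amp w ι (ph A ω) z = ∑ c, chi ω c • cproj c z := by
  ext i
  rw [amp_apply, Finset.sum_eq_single i]
  · simp [Tele.ph_apply, cproj_apply, hw.one]
  · intro j _ hj
    rw [Tele.ph_apply, if_neg (Ne.symm hj)]
    simp
  · simp

omit [PartialOrder A] [StarOrderedRing A] [CompleteSpace H] in
theorem wv_fwd (hw : IsHom w) (x : CStarMatrix ι ι A) (θ : HH ι H) (ω : ι → ZMod R) (k : ℕ) :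
    amp w ι (ph A ω * (x * ph A ω) ^ k) θ = wv cproj (amp w ι x).toLinearMap θ ω k := by
  induction k with
  | zero =>
    rw [pow_zero, mul_one, amp_phase hw]
    rfl
  | succ k ih =>
    rw [pow_succ', mul_assoc (x), amp_mul hw (ph A ω), mul_apply_eq_comp,
      amp_phase hw, amp_mul hw x, mul_apply_eq_comp, ih]
    rfl

omit [PartialOrder A] [StarOrderedRing A] [CompleteSpace H] in
theorem wv_bwd (hw : IsHom w) (x : CStarMatrix ι ι A) (hx : x ∈ unitary (CStarMatrix ι ι A))
    (ζ : HH ι H) (ω : ι → ZMod R) (k : ℕ) :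
    amp w ι (star (x * ph A ω) ^ (k + 1)) (amp w ι x ζ) =
      wv cproj (amp w ι (star x)).toLinearMap ζ (-ω) k := by
  induction k with
  | zero =>
    have h1 : amp w ι (star x) (amp w ι x ζ) = ζ := by
      rw [← mul_apply_eq_comp, ← amp_mul hw, (Unitary.mem_iff.mp hx).1, amp_one hw]
      rfl
    rw [zero_add, pow_one, star_mul, Tele.star_ph, amp_mul hw, mul_apply_eq_comp, amp_phase hw, h1]
    rfl
  | succ k ih =>
    rw [pow_succ', amp_mul hw, mul_apply_eq_comp, ih, star_mul, Tele.star_ph, amp_mul hw,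
      mul_apply_eq_comp, amp_phase hw]
    rfl

end

end Orbit

open Orbit in
theorem prove_orbit (h : T2_mom.{v}) : T2_orbit.{u, v} := by
  intro A _ _ _ H _ _ _ w hw ι _ _ x hx κ hκ hent R _ Q hQ hκQ hQR ζ
  constructor
  · intro k hk
    have h1 := (h ι R H (amp w ι x) κ hκ (fun i j h => (hent i j h).1) Q hκQ hQR
      (amp w ι x ζ) k hk).1
    refine h1.trans (le_of_eq ?_)
    refine Finset.sum_congr rfl fun ω _ => ?_
    rw [← wv_fwd hw x (amp w ι x ζ) ω k, amp_mul hw, mul_apply_eq_comp, amp_phase hw,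
      Mom.phase_norm]
  · intro q hq
    have h1 := (h ι R H (amp w ι (star x)) κ hκ (fun i j h => (hent i j h).2) Q hκQ hQR
      ζ q hq).2
    refine le_trans (le_of_eq ?_) h1
    rw [← Equiv.sum_comp (Equiv.neg (ι → ZMod R))
      fun ω => ‖wv cproj (amp w ι (star x)).toLinearMap ζ ω q‖ ^ 2]
    refine Finset.sum_congr rfl fun ω _ => ?_
    rw [wv_bwd hw x hx ζ ω q]
    rfl

end H759R2.Kad
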