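import Pool.Agent.H759R2.Kad.Props2
import Pool.Agent.H103R2.Kad.Tele

/-!
Task 09 of h759b: second moments of the polynomials `wv`.
-/

open scoped ComplexOrder InnerProductSpace ComplexConjugate
open Finset

noncomputable section

namespace H759R2.Kad

universe u v

namespace Mom

section

variable {H : Type v} [NormedAddCommGroup H] [InnerProductSpace ℂ H]
variable {ι : Type} [Fintype ι] [DecidableEq ι] {R : ℕ} [NeZero R]

/-- The diagonal phases act isometrically. -/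
theorem phase_norm (ω : ι → ZMod R) (z : HH ι H) :
    ‖∑ c, chi ω c • cproj c z‖ ^ 2 = ‖z‖ ^ 2 := by
  have e : ∀ i, (∑ c, chi ω c • cproj c z : HH ι H) i = chi ω i • z i := by
    intro i
    simp [cproj_apply]
  rw [PiLp.norm_sq_eq_of_L2, PiLp.norm_sq_eq_of_L2]
  refine Finset.sum_congr rfl fun i _ => ?_
  rw [e i, norm_smul]
  have h1 : ‖chi ω i‖ = 1 := by
    unfold chi
    exact AddChar.norm_apply _ _
  rw [h1, one_mul]

end

/-- real recursion -/
theorem rec_bounds (S : ℕ → ℝ) (κ : ℝ) (hκ : 0 ≤ κ) (Q : ℕ) (hQ : κ * Q ^ 2 ≤ 1 / 4)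
    (hS : ∀ k, 0 ≤ S k) (hstep : ∀ k, k < Q → |S (k + 1) - S k| ≤ κ * (k + 1) * S k) :
    ∀ k, k < Q → (1 - κ * (k * (k + 1) / 2)) * S 0 ≤ S k ∧ S k ≤ (1 + κ * (k * (k + 1))) * S 0 := by
  intro k
  induction k with
  | zero =>
    intro _
    simp
  | succ k ih =>
    intro hk
    obtain ⟨h1, h2⟩ := ih (by omega)
    have h3 := abs_le.1 (hstep k (by omega))
    have hkQ : (k : ℝ) + 1 + 1 ≤ Q := by exact_mod_cast hk
    have hk0 : (0 : ℝ) ≤ k := Nat.cast_nonneg k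
    have h4 : κ * ((k : ℝ) + 1) ≤ 1 / 4 := by
      have : ((k : ℝ) + 1) ≤ (Q : ℝ) ^ 2 := by nlinarith
      calc κ * ((k : ℝ) + 1) ≤ κ * (Q : ℝ) ^ 2 := by gcongr
        _ ≤ _ := hQ
    have h5 : κ * ((k : ℝ) * (k + 1)) ≤ 1 / 4 := by
      have : ((k : ℝ) * (k + 1)) ≤ (Q : ℝ) ^ 2 := by nlinarith
      calc κ * ((k : ℝ) * (k + 1)) ≤ κ * (Q : ℝ) ^ 2 := by gcongr
        _ ≤ _ := hQ
    have hS0 := hS 0
    push_cast
    constructor
    · have e1 : (1 - κ * ((k : ℝ) + 1)) * ((1 - κ * (k * (k + 1) / 2)) * S 0) ≤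
          (1 - κ * ((k : ℝ) + 1)) * S k := by
        apply mul_le_mul_of_nonneg_left h1
        linarith
      have e2 : 0 ≤ (κ * ((k : ℝ) + 1)) * (κ * (k * (k + 1) / 2)) * S 0 := by positivity
      nlinarith [h3.1]
    · have e1 : (1 + κ * ((k : ℝ) + 1)) * S k ≤
          (1 + κ * ((k : ℝ) + 1)) * ((1 + κ * (k * (k + 1))) * S 0) := by
        apply mul_le_mul_of_nonneg_left h2
        positivity
      have e2 : κ * ((k : ℝ) + 1) * (κ * ((k : ℝ) * (k + 1))) ≤ κ * ((k : ℝ) + 1) * 1 := by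
        apply mul_le_mul_of_nonneg_left _ (by positivity)
        linarith
      have e3 := mul_le_mul_of_nonneg_right e2 hS0
      nlinarith [h3.2]

end Mom

open Mom in
theorem prove_mom (hp : St_phop.{v}) : T2_mom.{v} := by
  intro ι _ _ R _ H _ _ _ V κ hκ hV Q hQ hQR θ k hk
  set S : ℕ → ℝ := fun k => ∑ ω : ι → ZMod R, ‖wv cproj V.toLinearMap θ ω k‖ ^ 2 with hS
  have hS0 : S 0 = (Fintype.card (ι → ZMod R) : ℝ) * ‖θ‖ ^ 2 := by
    rw [hS]
    have : ∀ ω ∈ (univ : Finset (ι → ZMod R)),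
        ‖wv cproj V.toLinearMap θ ω 0‖ ^ 2 = ‖θ‖ ^ 2 := by
      intro ω _
      exact phase_norm ω θ
    simp only []
    rw [Finset.sum_congr rfl this, Finset.sum_const, Finset.card_univ, nsmul_eq_mul]
  have hnn : ∀ k, 0 ≤ S k := fun k => Finset.sum_nonneg fun ω _ => by positivity
  have hstep : ∀ k, k < Q → |S (k + 1) - S k| ≤ κ * (k + 1) * S k := by
    intro k hk
    have h1 := hp ι R H V (star V * V - 1) κ hκ (fun c c' u => hV c c' u) θ k (by omega)
    have h2 : ∀ ω : ι → ZMod R, ‖wv cproj V.toLinearMap θ ω (k + 1)‖ ^ 2 -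
        ‖wv cproj V.toLinearMap θ ω k‖ ^ 2 =
        (⟪wv cproj V.toLinearMap θ ω k,
          (star V * V - 1) (wv cproj V.toLinearMap θ ω k)⟫_ℂ).re := by
      intro ω
      have h3 : ‖wv cproj V.toLinearMap θ ω (k + 1)‖ ^ 2 =
          ‖V (wv cproj V.toLinearMap θ ω k)‖ ^ 2 := phase_norm ω _
      rw [h3]
      set z := wv cproj V.toLinearMap θ ω k with hz
      have h4 : (star V * V - 1) z = (star V) (V z) - z := rfl
      rw [h4, inner_sub_right, ContinuousLinearMap.star_eq_adjoint,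
        ContinuousLinearMap.adjoint_inner_right, inner_self_eq_norm_sq_to_K,
        inner_self_eq_norm_sq_to_K]
      simp only [Complex.sub_re]
      norm_cast
    have h5 : S (k + 1) - S k = (∑ ω : ι → ZMod R, ⟪wv cproj V.toLinearMap θ ω k,
          (star V * V - 1) (wv cproj V.toLinearMap θ ω k)⟫_ℂ).re := by
      rw [hS]
      simp only []
      rw [← Finset.sum_sub_distrib, Complex.re_sum]
      exact Finset.sum_congr rfl fun ω _ => h2 ω
    rw [h5]
    exact (Complex.abs_re_le_norm _).trans h1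
  obtain ⟨h1, h2⟩ := rec_bounds S κ hκ Q hQ hnn hstep k hk
  have hkQ : (k : ℝ) + 1 ≤ Q := by exact_mod_cast hk
  have hk0 : (0 : ℝ) ≤ k := Nat.cast_nonneg k
  have h5 : κ * ((k : ℝ) * (k + 1)) ≤ 1 / 4 := by
    have : ((k : ℝ) * (k + 1)) ≤ (Q : ℝ) ^ 2 := by nlinarith
    calc κ * ((k : ℝ) * (k + 1)) ≤ κ * (Q : ℝ) ^ 2 := by gcongr
      _ ≤ _ := hQ
  rw [← hS0]
  have hS0n := hnn 0
  constructor
  · refine le_trans ?_ h1
    apply mul_le_mul_of_nonneg_right _ hS0n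
    linarith
  · refine le_trans h2 ?_
    apply mul_le_mul_of_nonneg_right _ hS0n
    linarith

end H759R2.Kad
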